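import Mathlib

/-!
# No polynomial-time algorithm computes Dehn presentations of word-hyperbolic groups

The group `G_n = ⟨a, t_0, …, t_n | t_0 a t_0⁻¹ = a², t_n = 1, t_i² = t_{i+1}⟩` is finite (it is
`ℤ/(2^(2^n) - 1) ⋊ ℤ/2^n`), and this presentation has size `4 n + 8`.  The powers of `a` fall into
at least `(2^(2^n) - 1) / 2^n` conjugacy classes.  In a group given by a Dehn presentation each
element of finite order is conjugate to an element represented by a word that is at most as long
as the presentation.  Hence every Dehn presentation of `G_n`, over any finite generating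
set, has size `s` with `2^n ≤ n + 1 + s (s + 1)`, and cannot be written down in polynomial time.
-/

namespace Pool.Agent.Results.MP_0fd394_lc.NoPolyTimeDehn

/-! ### The definitions used in the statement -/

/-- A finite presentation `⟨X | R⟩`: the alphabet `X` is `Fin gens`, and the finite set `R` of words
over `X^{±1}` is given by the list of its elements.  The letter `(x, true)` stands for `x`, and the
letter `(x, false)` for `x⁻¹`. -/
structure FinPres where
  /-- The number of generators. -/
  gens : ℕ
  /-- The relators. -/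
  rels : List (List (Fin gens × Bool))

namespace FinPres

/-- The relators of `P` as elements of the free group on the generators. -/
def relSet (P : FinPres) : Set (FreeGroup (Fin P.gens)) :=
  {g | ∃ r ∈ P.rels, g = FreeGroup.mk r}

/-- The group presented by `P`. -/
abbrev Grp (P : FinPres) : Type := PresentedGroup P.relSet

/-- The element of the presented group represented by a word. -/
def eval (P : FinPres) (w : List (Fin P.gens × Bool)) : P.Grp :=
  PresentedGroup.mk P.relSet (FreeGroup.mk w)

/-- The size of a presentation: `|X|` plus the sum of the lengths of the relators. -/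
def size (P : FinPres) : ℕ := P.gens + (P.rels.map List.length).sum

/-- The set `R^*` of all cyclic permutations of the relators and of their inverses, freely
reduced. -/
def star (P : FinPres) : Set (List (Fin P.gens × Bool)) :=
  {s | ∃ r ∈ P.rels, ∃ r', (r' ~r r ∨ r' ~r FreeGroup.invRev r) ∧ s = FreeGroup.reduce r'}

/-- `P` is a Dehn presentation: every nonempty freely reduced word that represents the identity
contains a subword `u` such that some element of `R^*` can be written `u v` with `|v| < |u|`. -/
def IsDehn (P : FinPres) : Prop :=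
  ∀ w : List (Fin P.gens × Bool), w ≠ [] → FreeGroup.IsReduced w → P.eval w = 1 →
    ∃ u v : List (Fin P.gens × Bool), u <:+: w ∧ u ++ v ∈ P.star ∧ v.length < u.length

/-- `Q` has the same generators as `P`, and the relators of `Q` have the same normal closure in the
free group on these generators as the relators of `P`. -/
def SameClosure (P Q : FinPres) : Prop :=
  ∃ R : List (List (Fin P.gens × Bool)), Q = ⟨P.gens, R⟩ ∧
    Subgroup.normalClosure (relSet ⟨P.gens, R⟩) = Subgroup.normalClosure P.relSet

end FinPres

/-- Every geodesic triangle (with vertices in `G`) of the Cayley graph of `G` with respect to `S` is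
`δ`-thin: each vertex on a side is at distance at most `δ` from the union of the two other
sides. -/
def ThinTriangles {G : Type} [Group G] (S : Set G) (δ : ℕ) : Prop :=
  ∀ (x y z : G) (p : (SimpleGraph.mulCayley S).Walk x y) (q : (SimpleGraph.mulCayley S).Walk y z)
    (r : (SimpleGraph.mulCayley S).Walk z x),
    p.length = (SimpleGraph.mulCayley S).dist x y →
    q.length = (SimpleGraph.mulCayley S).dist y z →
    r.length = (SimpleGraph.mulCayley S).dist z x →
    ∀ v ∈ p.support, ∃ u, (u ∈ q.support ∨ u ∈ r.support) ∧
      (SimpleGraph.mulCayley S).dist v u ≤ δ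

/-- `G` is word-hyperbolic: it has a finite generating set `S` and a number `δ` such that all
geodesic triangles of the Cayley graph with respect to `S` are `δ`-thin. -/
def IsWordHyperbolic (G : Type) [Group G] : Prop :=
  ∃ S : Finset G, Subgroup.closure (S : Set G) = ⊤ ∧ ∃ δ : ℕ, ThinTriangles (S : Set G) δ

/-- The alphabet in which presentations are written: two binary digits, a mark for a generator,
a mark for the beginning of a relator, and the two signs of a letter. -/
inductive Sym
  | zero | one | gen | rel | pos | neg
  deriving DecidableEq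

/-- The code of the letter `x_i^{±1}`: the binary digits of `i`, then the sign. -/
def encodeLetter {n : ℕ} (a : Fin n × Bool) : List Sym :=
  (Nat.bits a.1.1).map (fun b => if b then Sym.one else Sym.zero) ++
    [if a.2 then Sym.pos else Sym.neg]

/-- The code of a word: the mark `rel`, then the codes of its letters. -/
def encodeWord {n : ℕ} (w : List (Fin n × Bool)) : List Sym :=
  Sym.rel :: w.flatMap encodeLetter

/-- The code of a presentation: one mark `gen` for each generator, then the codes of the
relators. -/
def FinPres.encode (P : FinPres) : List Sym :=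
  List.replicate P.gens Sym.gen ++ P.rels.flatMap encodeWord

/-! ### Dehn presentations and elements of finite order -/

section lemmas

variable {P : FinPres}

theorem eval_append (u v : List (Fin P.gens × Bool)) :
    P.eval (u ++ v) = P.eval u * P.eval v := by
  simp [FinPres.eval, ← FreeGroup.mul_mk]

theorem eval_invRev (u : List (Fin P.gens × Bool)) :
    P.eval (FreeGroup.invRev u) = (P.eval u)⁻¹ := by
  simp [FinPres.eval, ← FreeGroup.inv_mk]

theorem eval_nil : P.eval ([] : List (Fin P.gens × Bool)) = 1 := by
  simp [FinPres.eval, ← FreeGroup.one_eq_mk]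

theorem eval_reduce (u : List (Fin P.gens × Bool)) :
    P.eval (FreeGroup.reduce u) = P.eval u := by
  simp [FinPres.eval, FreeGroup.reduce.self]

theorem eval_replicate (u : List (Fin P.gens × Bool)) (n : ℕ) :
    P.eval (List.replicate n u).flatten = (P.eval u) ^ n := by
  induction n with
  | zero => simp [eval_nil]
  | succ n ih => rw [List.replicate_succ, List.flatten_cons, eval_append, ih, pow_succ']

theorem eval_rel {r : List (Fin P.gens × Bool)} (h : r ∈ P.rels) : P.eval r = 1 :=
  PresentedGroup.one_of_mem ⟨r, h, rfl⟩

theorem isConj_of_isRotated {u v : List (Fin P.gens × Bool)} (h : u ~r v) :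
    IsConj (P.eval u) (P.eval v) := by
  obtain ⟨n, rfl⟩ := h
  rw [List.rotate_eq_drop_append_take_mod]
  conv_lhs => rw [← List.take_append_drop (n % u.length) u]
  rw [eval_append, eval_append, isConj_iff]
  exact ⟨(P.eval (List.take (n % u.length) u))⁻¹, by group⟩

theorem eval_of_mem_star {s : List (Fin P.gens × Bool)} (h : s ∈ P.star) : P.eval s = 1 := by
  obtain ⟨r, hr, r', h | h, rfl⟩ := h
  · have := isConj_of_isRotated h
    rw [eval_rel hr] at this
    rw [eval_reduce]
    exact isConj_one_left.1 this
  · have := isConj_of_isRotated h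
    rw [eval_invRev, eval_rel hr, inv_one] at this
    rw [eval_reduce]
    exact isConj_one_left.1 this

theorem length_of_mem_star {s : List (Fin P.gens × Bool)} (h : s ∈ P.star) :
    s.length ≤ P.size := by
  obtain ⟨r, hr, r', h, rfl⟩ := h
  have h1 : (FreeGroup.reduce r').length ≤ r'.length := (FreeGroup.reduce.red).length_le
  have h2 : r'.length = r.length := by
    rcases h with h | h
    · exact h.perm.length_eq
    · rw [h.perm.length_eq, FreeGroup.invRev_length]
  have h3 : r.length ≤ (P.rels.map List.length).sum :=
    List.single_le_sum (by simp) _ (List.mem_map_of_mem hr)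
  unfold FinPres.size
  omega

end lemmas

/-- A subword of a power of `w` which is not longer than `w` is a prefix of a rotation of `w`. -/
theorem infx_replicate {α : Type*} {w u : List α} {n : ℕ} (hn : u <:+: (List.replicate n w).flatten)
    (hu : u.length ≤ w.length) : ∃ w', w' ~r w ∧ u <+: w' := by
  obtain ⟨s, t, h⟩ := hn
  -- rotate
  have key : ∀ (m : ℕ) (k : ℕ) (w : List α),
      ∃ w', w' ~r w ∧ w'.length = w.length ∧
        (List.replicate m w).flatten.rotate k = (List.replicate m w').flatten := by
    intro m k
    induction k with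
    | zero => intro w; exact ⟨w, List.IsRotated.refl w, rfl, by simp⟩
    | succ k ih =>
      intro w
      obtain ⟨w', hw', hl, he⟩ := ih w
      rw [← List.rotate_rotate, he]
      cases w' with
      | nil => exact ⟨[], hw', hl, by simp⟩
      | cons a w'' =>
        refine ⟨w'' ++ [a], ?_, by simpa using hl, ?_⟩
        · refine List.IsRotated.trans ?_ hw'
          exact List.isRotated_comm.1 ⟨1, by simp⟩
        · cases m with
          | zero => simp
          | succ m =>
            rw [List.replicate_succ, List.flatten_cons, List.cons_append, List.rotate_cons_succ,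
              List.rotate_zero, List.append_assoc]
            have : ∀ m, (List.replicate m (a :: w'')).flatten ++ [a]
                = [a] ++ (List.replicate m (w'' ++ [a])).flatten := by
              intro m
              induction m with
              | zero => simp
              | succ m ihm =>
                rw [List.replicate_succ, List.flatten_cons, List.append_assoc, ihm,
                  List.replicate_succ, List.flatten_cons]
                simp
            rw [this, List.replicate_succ, List.flatten_cons]
            simp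
  obtain ⟨w', hw', hl, he⟩ := key n s.length w
  refine ⟨w', hw', ?_⟩
  rw [← h, List.append_assoc, List.rotate_append_length_eq] at he
  cases n with
  | zero =>
    simp only [List.replicate_zero, List.flatten_nil, List.append_eq_nil_iff] at h
    rw [h.1.2]; exact List.nil_prefix
  | succ n =>
    rw [List.replicate_succ, List.flatten_cons] at he
    have h1 : u <+: w' ++ (List.replicate n w').flatten := ⟨t ++ s, by rw [← he]; simp⟩
    have h2 : w' <+: w' ++ (List.replicate n w').flatten := List.prefix_append _ _
    exact List.prefix_of_prefix_length_le h1 h2 (by omega)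

/-- In a Dehn presentation every element of finite order is conjugate to an element
represented by a word of length at most the size of the presentation. -/
theorem short_conj (P : FinPres) (hD : P.IsDehn) (g : P.Grp) (hg : IsOfFinOrder g) :
    ∃ w : List (Fin P.gens × Bool), w.length ≤ P.size ∧ IsConj g (P.eval w) := by
  classical
  have hex : ∃ n, ∃ w : List (Fin P.gens × Bool), w.length = n ∧ IsConj g (P.eval w) := by
    obtain ⟨x, hx⟩ := PresentedGroup.mk_surjective P.relSet g
    refine ⟨_, x.toWord, rfl, ?_⟩
    have : P.eval x.toWord = g := by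
      rw [FinPres.eval, FreeGroup.mk_toWord, hx]
    rw [this]
  obtain ⟨w, hwn, hw⟩ := Nat.find_spec hex
  have hmin : ∀ w' : List (Fin P.gens × Bool), IsConj g (P.eval w') → w.length ≤ w'.length := by
    intro w' hw'
    rw [hwn]
    exact Nat.find_min' hex ⟨w', rfl, hw'⟩
  refine ⟨w, ?_, hw⟩
  by_contra hlt
  push Not at hlt
  have hne : w ≠ [] := by
    rintro rfl
    simp at hlt
  have hgens : 1 ≤ P.gens := by
    cases w with
    | nil => exact absurd rfl hne
    | cons a w => exact Nat.lt_of_le_of_lt (Nat.zero_le _) a.1.2
  have h2 : 2 ≤ w.length := by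
    unfold FinPres.size at hlt
    omega
  -- the power
  obtain ⟨n, hn, hgn⟩ := isOfFinOrder_iff_pow_eq_one.1 hg
  have hwn1 : (P.eval w) ^ n = 1 := by
    obtain ⟨c, hc⟩ := isConj_iff.1 hw
    rw [← hc, conj_pow, hgn]
    group
  -- `w` is reduced
  have hred : FreeGroup.IsReduced w := by
    rw [FreeGroup.isReduced_iff_not_step]
    intro w' hst
    have h1 : w'.length < w.length := by
      have := hst.length
      omega
    have h3 : P.eval w' = P.eval w := by
      simp only [FinPres.eval]
      rw [FreeGroup.Red.exact.2 ⟨w', FreeGroup.Red.refl, hst.to_red⟩]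
    have := hmin w' (by rw [h3]; exact hw)
    omega
  have hcyc : FreeGroup.IsCyclicallyReduced w := by
    refine ⟨hred, ?_⟩
    intro a ha b hb hab
    by_contra hne2
    -- w = b :: w0 ++ [a]
    obtain ⟨w0, rfl⟩ : ∃ w0, w = b :: (w0 ++ [a]) := by
      cases w with
      | nil => exact absurd rfl hne
      | cons c w1 =>
        simp only [List.head?_cons, Option.mem_def, Option.some.injEq] at hb
        subst hb
        rcases List.eq_nil_or_concat w1 with rfl | ⟨w0, d, rfl⟩
        · simp at h2
        · refine ⟨w0, ?_⟩
          have : ((c :: (w0 ++ [d])).getLast?) = some d := by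
            rw [← List.cons_append, List.getLast?_concat]
          rw [List.concat_eq_append] at ha
          rw [this] at ha
          simp only [Option.mem_def, Option.some.injEq] at ha
          rw [ha, List.concat_eq_append]
    have hb' : b = (a.1, !a.2) := by
      ext
      · simp [hab]
      · simp only
        cases h : a.2 <;> cases h' : b.2 <;> simp_all
    have hconj : IsConj (P.eval (b :: (w0 ++ [a]))) (P.eval w0) := by
      have e1 : P.eval (b :: (w0 ++ [a])) = P.eval [b] * P.eval w0 * P.eval [a] := by
        rw [← eval_append, ← eval_append]; simp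
      have e2 : P.eval [b] = (P.eval [a])⁻¹ := by
        rw [← eval_invRev, hb']; simp [FreeGroup.invRev]
      rw [e1, e2, isConj_iff]
      exact ⟨P.eval [a], by group⟩
    have := hmin w0 (hw.trans hconj)
    simp at this
  have hW := (hcyc.flatten_replicate n).isReduced
  have hWne : (List.replicate n w).flatten ≠ [] := by
    obtain ⟨n, rfl⟩ : ∃ m, n = m + 1 := ⟨n - 1, by omega⟩
    rw [List.replicate_succ, List.flatten_cons]
    simp [hne]
  obtain ⟨u, v, hu, huv, hlen⟩ := hD _ hWne hW (by rw [eval_replicate, hwn1])
  have h4 := length_of_mem_star huv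
  rw [List.length_append] at h4
  obtain ⟨w', hw', z, rfl⟩ := infx_replicate hu (by omega)
  have h5 : P.eval u = (P.eval v)⁻¹ := by
    have := eval_of_mem_star huv
    rw [eval_append] at this
    exact eq_inv_of_mul_eq_one_left this
  have h6 : P.eval (u ++ z) = P.eval (FreeGroup.invRev v ++ z) := by
    rw [eval_append, eval_append, h5, eval_invRev]
  have h7 := hmin (FreeGroup.invRev v ++ z) (by
    rw [← h6]
    exact hw.trans (isConj_of_isRotated hw').symm)
  have h8 := hw'.perm.length_eq
  rw [List.length_append] at h8
  rw [List.length_append, FreeGroup.invRev_length] at h7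
  omega


/-! ### Finite groups are hyperbolic -/

theorem isWordHyperbolic_of_finite (G : Type) [Group G] [Finite G] : IsWordHyperbolic G := by
  classical
  have := Fintype.ofFinite G
  refine ⟨Finset.univ, by simp, 1, ?_⟩
  intro x y z p q r _ _ _ v _
  refine ⟨z, Or.inl q.end_mem_support, ?_⟩
  rw [Finset.coe_univ, SimpleGraph.mulCayley_univ]
  by_cases h : v = z
  · subst h; simp
  · rw [SimpleGraph.dist_top_of_ne h]

section family

/-- The generator `t_i`. -/
def tg (n : ℕ) (i : ℕ) (hi : i ≤ n) : Fin (n + 2) := ⟨i, by omega⟩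

/-- The generator `a`. -/
def ag (n : ℕ) : Fin (n + 2) := ⟨n + 1, by omega⟩

/-- The presentation `⟨a, t_0, …, t_n | t_0 a t_0⁻¹ = a², t_n = 1, t_i² = t_{i+1}⟩`. -/
abbrev fam (n : ℕ) : FinPres where
  gens := n + 2
  rels := [(tg n 0 (Nat.zero_le _), true), (ag n, true), (tg n 0 (Nat.zero_le _), false),
      (ag n, false), (ag n, false)] :: [(tg n n le_rfl, true)] ::
    (List.finRange n).map (fun i : Fin n => [(tg n i i.2.le, true), (tg n i i.2.le, true),
      (tg n (i + 1) i.2, false)])

theorem size_fam (n : ℕ) : (fam n).size = 4 * n + 8 := by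
  simp only [FinPres.size, fam, List.map_cons, List.map_map, List.sum_cons, List.length_cons,
    List.length_nil]
  have : (List.map (List.length ∘ fun i : Fin n => [(tg n i i.2.le, true), (tg n i i.2.le, true),
      (tg n (i + 1) i.2, false)]) (List.finRange n)).sum = 3 * n := by
    have h : (List.length ∘ fun i : Fin n => [(tg n i i.2.le, true), (tg n i i.2.le, true),
      (tg n (i + 1) i.2, false)]) = fun _ => 3 := by
      ext i; rfl
    rw [h]
    simp [mul_comm]
  rw [this]
  ring

theorem eval_cons {P : FinPres} (x : Fin P.gens) (b : Bool) (w : List (Fin P.gens × Bool)) :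
    P.eval ((x, b) :: w) = (cond b (PresentedGroup.of x) (PresentedGroup.of x)⁻¹) * P.eval w := by
  have h : P.eval ((x, b) :: w) = P.eval [(x, b)] * P.eval w := by
    rw [← eval_append]; rfl
  rw [h]
  congr 1
  cases b
  · have : P.eval [(x, false)] = P.eval (FreeGroup.invRev [(x, true)]) := by
      simp [FreeGroup.invRev]
    rw [this, eval_invRev]
    rfl
  · rfl

variable (n : ℕ)

/-- the element `a` of the group -/
def A : (fam n).Grp := PresentedGroup.of (ag n)

/-- the element `t_0` of the group -/
def T : (fam n).Grp := PresentedGroup.of (tg n 0 (Nat.zero_le _))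

theorem TA : T n * A n * (T n)⁻¹ = (A n) ^ 2 := by
  have h : (fam n).eval [(tg n 0 (Nat.zero_le _), true), (ag n, true),
      (tg n 0 (Nat.zero_le _), false), (ag n, false), (ag n, false)] = 1 :=
    eval_rel (P := fam n) (by simp [fam])
  rw [eval_cons, eval_cons, eval_cons, eval_cons, eval_cons, eval_nil] at h
  simp only [cond_true, cond_false, mul_one] at h
  have h2 : T n * A n * (T n)⁻¹ * ((A n)⁻¹ * (A n)⁻¹) = 1 := by
    rw [← h]; simp only [A, T]; group
  rw [mul_eq_one_iff_eq_inv] at h2
  rw [h2]; group

theorem t_pow (i : ℕ) (hi : i ≤ n) :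
    (PresentedGroup.of (tg n i hi) : (fam n).Grp) = (T n) ^ (2 ^ i) := by
  induction i with
  | zero => simp [T]
  | succ i ih =>
    have h : (fam n).eval [(tg n i (by omega), true), (tg n i (by omega), true),
      (tg n (i + 1) hi, false)] = 1 := by
      refine eval_rel (P := fam n) ?_
      simp only [fam, List.mem_cons, List.mem_map, List.mem_finRange, true_and]
      right; right
      exact ⟨⟨i, by omega⟩, rfl⟩
    rw [eval_cons, eval_cons, eval_cons, eval_nil] at h
    simp only [cond_true, cond_false, mul_one] at h
    rw [← mul_assoc, mul_inv_eq_one] at h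
    rw [← h, ih (by omega), ← pow_add, pow_succ]
    congr 1
    ring

theorem T_pow_card : (T n) ^ (2 ^ n) = 1 := by
  rw [← t_pow n n le_rfl]
  have h : (fam n).eval [(tg n n le_rfl, true)] = 1 := eval_rel (P := fam n) (by simp [fam])
  rw [eval_cons, eval_nil] at h
  simpa using h

theorem T_pow_conj (k c : ℕ) : (T n) ^ k * (A n) ^ c * ((T n) ^ k)⁻¹ = (A n) ^ (2 ^ k * c) := by
  induction k generalizing c with
  | zero => simp
  | succ k ih =>
    have h1 : (T n) ^ (k + 1) * (A n) ^ c * ((T n) ^ (k + 1))⁻¹
        = (T n) ^ k * (T n * (A n) ^ c * (T n)⁻¹) * ((T n) ^ k)⁻¹ := by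
      rw [pow_succ]; group
    rw [h1, ← conj_pow, TA, ← pow_mul, ih, pow_succ]
    congr 1
    ring

theorem A_pow_card : (A n) ^ (2 ^ (2 ^ n) - 1) = 1 := by
  have h := T_pow_conj n (2 ^ n) 1
  rw [T_pow_card, mul_one] at h
  simp only [pow_one, one_mul, inv_one, mul_one] at h
  have h2 : (A n) ^ (2 ^ (2 ^ n) - 1) * A n = A n := by
    rw [← pow_succ, Nat.sub_add_cancel Nat.one_le_two_pow]
    exact h.symm
  exact mul_eq_right.1 h2

theorem TA_pow_comm (k c : ℕ) : (T n) ^ k * (A n) ^ c = (A n) ^ (2 ^ k * c) * (T n) ^ k := by
  rw [← T_pow_conj]; group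

/-- Normal form in the group presented by `fam n`. -/
theorem normal_form (g : (fam n).Grp) : ∃ b k : ℕ, g = (A n) ^ b * (T n) ^ k := by
  let H : Subgroup (fam n).Grp :=
    { carrier := {g | ∃ b k : ℕ, g = (A n) ^ b * (T n) ^ k}
      one_mem' := ⟨0, 0, by simp⟩
      mul_mem' := by
        rintro _ _ ⟨b, k, rfl⟩ ⟨c, l, rfl⟩
        refine ⟨b + 2 ^ k * c, k + l, ?_⟩
        rw [pow_add, pow_add]
        calc (A n) ^ b * (T n) ^ k * ((A n) ^ c * (T n) ^ l)
            = (A n) ^ b * ((T n) ^ k * (A n) ^ c) * (T n) ^ l := by group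
          _ = _ := by rw [TA_pow_comm]; group
      inv_mem' := by
        rintro _ ⟨b, k, rfl⟩
        have h1 : ((T n) ^ k)⁻¹ = (T n) ^ (k * (2 ^ n - 1)) := by
          rw [inv_eq_iff_mul_eq_one, ← pow_add]
          have : k + k * (2 ^ n - 1) = 2 ^ n * k := by
            obtain ⟨m, hm⟩ : ∃ m, 2 ^ n = m + 1 := ⟨2 ^ n - 1, by
              have := Nat.one_le_two_pow (n := n); omega⟩
            rw [hm]; simp; ring
          rw [this, pow_mul, T_pow_card, one_pow]
        have h2 : ((A n) ^ b)⁻¹ = (A n) ^ (b * (2 ^ (2 ^ n) - 1 - 1 )) := by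
          rw [inv_eq_iff_mul_eq_one, ← pow_add]
          have : b + b * (2 ^ (2 ^ n) - 1 - 1) = (2 ^ (2 ^ n) - 1) * b := by
            obtain ⟨m, hm⟩ : ∃ m, 2 ^ (2 ^ n) - 1 = m + 1 := ⟨2 ^ (2 ^ n) - 1 - 1, by
              have : 2 ^ 1 ≤ 2 ^ (2 ^ n) := Nat.pow_le_pow_right (by norm_num) Nat.one_le_two_pow
              omega⟩
            rw [hm]; simp; ring
          rw [this, pow_mul, A_pow_card, one_pow]
        rw [mul_inv_rev, h1, h2, TA_pow_comm]
        exact ⟨_, _, rfl⟩ }
  refine PresentedGroup.generated_by _ H ?_ g
  intro j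
  by_cases hj : j.1 ≤ n
  · have : j = tg n j.1 hj := rfl
    rw [this, t_pow]
    exact ⟨0, _, by rw [pow_zero, one_mul]⟩
  · have : j = ag n := by
      ext
      have := j.2
      simp only [fam, ag] at this ⊢
      omega
    rw [this]
    exact ⟨1, 0, by simp [A]⟩

instance finite_fam : Finite (fam n).Grp := by
  have hM : 0 < 2 ^ (2 ^ n) - 1 := by
    have : 2 ^ 1 ≤ 2 ^ (2 ^ n) := Nat.pow_le_pow_right (by norm_num) Nat.one_le_two_pow
    omega
  have hN : 0 < 2 ^ n := by positivity
  refine Finite.of_surjective
    (fun p : Fin (2 ^ (2 ^ n) - 1) × Fin (2 ^ n) => (A n) ^ (p.1 : ℕ) * (T n) ^ (p.2 : ℕ)) ?_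
  intro g
  obtain ⟨b, k, rfl⟩ := normal_form n g
  refine ⟨(⟨b % (2 ^ (2 ^ n) - 1), Nat.mod_lt _ hM⟩, ⟨k % 2 ^ n, Nat.mod_lt _ hN⟩), ?_⟩
  simp only
  rw [← pow_eq_pow_mod b (A_pow_card n), ← pow_eq_pow_mod k (T_pow_card n)]

end family

/-! ### Conjugacy classes and the size of Dehn presentations -/

section counting

variable (n : ℕ)

/-- The modulus `2^(2^n) - 1`. -/
def Mo : ℕ := 2 ^ (2 ^ n) - 1

theorem Mo_pos : 0 < Mo n := by
  have : 2 ^ 1 ≤ 2 ^ (2 ^ n) := Nat.pow_le_pow_right (by norm_num) Nat.one_le_two_pow
  unfold Mo; omega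

instance : NeZero (Mo n) := ⟨(Mo_pos n).ne'⟩

theorem two_pow_card : (2 : ZMod (Mo n)) ^ (2 ^ n) = 1 := by
  have h : ((Mo n : ℕ) : ZMod (Mo n)) = 0 := ZMod.natCast_self _
  have h1 : Mo n + 1 = 2 ^ (2 ^ n) := by
    unfold Mo
    exact Nat.sub_add_cancel Nat.one_le_two_pow
  have h2 : ((Mo n + 1 : ℕ) : ZMod (Mo n)) = ((2 ^ (2 ^ n) : ℕ) : ZMod (Mo n)) := by rw [h1]
  push_cast at h2
  rw [← h2, h, zero_add]

/-- The unit `2` of `ℤ/(2^(2^n) - 1)`. -/
def twoU : (ZMod (Mo n))ˣ where
  val := 2
  inv := 2 ^ (2 ^ n - 1)
  val_inv := by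
    rw [← pow_succ', Nat.sub_add_cancel Nat.one_le_two_pow, two_pow_card]
  inv_val := by
    rw [← pow_succ, Nat.sub_add_cancel Nat.one_le_two_pow, two_pow_card]

/-- images of the generators in the permutation group of `ℤ/(2^(2^n) - 1)` -/
def genMap : Fin (n + 2) → Equiv.Perm (ZMod (Mo n)) := fun j =>
  if j.1 ≤ n then MulAction.toPermHom (ZMod (Mo n))ˣ (ZMod (Mo n)) (twoU n ^ (2 ^ j.1))
  else Equiv.addLeft (1 : ZMod (Mo n))

theorem genMap_t (i : ℕ) (hi : i ≤ n) : genMap n (tg n i hi) =
    MulAction.toPermHom (ZMod (Mo n))ˣ (ZMod (Mo n)) (twoU n ^ (2 ^ i)) := by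
  simp [genMap, tg, hi]

theorem genMap_a : genMap n (ag n) = Equiv.addLeft (1 : ZMod (Mo n)) := by
  simp [genMap, ag]

theorem genMap_rels : ∀ r ∈ (fam n).relSet, FreeGroup.lift (genMap n) r = 1 := by
  rintro _ ⟨r, hr, rfl⟩
  simp only [List.mem_cons, List.mem_map, List.mem_finRange, true_and] at hr
  rcases hr with rfl | rfl | ⟨i, rfl⟩
  · simp only [FreeGroup.lift_mk, List.map_cons, List.map_nil, List.prod_cons, List.prod_nil,
      cond_true, cond_false, genMap_t, genMap_a, mul_one]
    have key : (MulAction.toPermHom (ZMod (Mo n))ˣ (ZMod (Mo n)) (twoU n ^ (2 ^ 0))) *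
        Equiv.addLeft (1 : ZMod (Mo n)) = Equiv.addLeft (1 : ZMod (Mo n)) *
        Equiv.addLeft (1 : ZMod (Mo n)) *
        (MulAction.toPermHom (ZMod (Mo n))ˣ (ZMod (Mo n)) (twoU n ^ (2 ^ 0))) := by
      ext x
      simp only [pow_zero, pow_one, Equiv.Perm.mul_apply, MulAction.toPermHom_apply,
        MulAction.toPerm_apply, Equiv.coe_addLeft, Units.smul_def, twoU, smul_eq_mul]
      ring
    rw [← mul_assoc, key]
    group
  · simp only [FreeGroup.lift_mk, List.map_cons, List.map_nil, List.prod_cons, List.prod_nil,
      cond_true, genMap_t, mul_one]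
    rw [show twoU n ^ (2 ^ n) = 1 from by
      ext
      simp [twoU, two_pow_card]]
    exact map_one _
  · simp only [FreeGroup.lift_mk, List.map_cons, List.map_nil, List.prod_cons, List.prod_nil,
      cond_true, cond_false, genMap_t, mul_one]
    rw [← mul_assoc, mul_inv_eq_one, ← map_mul, ← pow_add, pow_succ, mul_two]

/-- The homomorphism from the group presented by `fam n` to the permutation group. -/
def phi : (fam n).Grp →* Equiv.Perm (ZMod (Mo n)) := PresentedGroup.toGroup (genMap_rels n)

theorem phi_A_pow (i : ℕ) : phi n (A n ^ i) 0 = (i : ZMod (Mo n)) := by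
  have h : phi n (A n) = Equiv.addLeft (1 : ZMod (Mo n)) := by
    rw [phi, A, PresentedGroup.toGroup.of, genMap_a]
  rw [map_pow, h]
  induction i with
  | zero => simp
  | succ i ih =>
    rw [pow_succ', Equiv.Perm.mul_apply, ih]
    simp [add_comm]

theorem conj_A_pow (i j : ℕ) (h : IsConj (A n ^ i) (A n ^ j)) :
    ∃ k < 2 ^ n, (j : ZMod (Mo n)) = 2 ^ k * (i : ZMod (Mo n)) := by
  obtain ⟨g, hg⟩ := isConj_iff.1 h
  obtain ⟨b, k, rfl⟩ := normal_form n g
  have h1 : A n ^ b * T n ^ k * A n ^ i * (A n ^ b * T n ^ k)⁻¹ = A n ^ (2 ^ k * i) := by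
    have h2 : A n ^ b * T n ^ k * A n ^ i * (A n ^ b * T n ^ k)⁻¹
        = A n ^ b * (T n ^ k * A n ^ i * (T n ^ k)⁻¹) * (A n ^ b)⁻¹ := by group
    rw [h2, T_pow_conj, ← pow_add, add_comm, pow_add, mul_inv_cancel_right]
  rw [h1] at hg
  refine ⟨k % 2 ^ n, Nat.mod_lt _ (by positivity), ?_⟩
  rw [← phi_A_pow n j, ← hg, phi_A_pow, ← pow_eq_pow_mod k (two_pow_card n)]
  push_cast
  rfl

theorem card_bound (Q : FinPres) (hQ : Q.IsDehn) (e : (fam n).Grp ≃* Q.Grp) :
    Mo n ≤ 2 ^ n * (2 * Q.gens + 1) ^ Q.size := by
  classical
  have hw : ∀ i : ZMod (Mo n), ∃ w : List (Fin Q.gens × Bool), w.length ≤ Q.size ∧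
      IsConj (e (A n ^ i.val)) (Q.eval w) := by
    intro i
    refine short_conj Q hQ _ ?_
    exact (e.toMonoidHom.isOfFinOrder (isOfFinOrder_of_finite (A n ^ i.val)))
  choose w hwl hwc using hw
  let F : ZMod (Mo n) → (Fin Q.size → Option (Fin Q.gens × Bool)) := fun i k => (w i)[k.1]?
  have hF : ∀ i j, F i = F j → w i = w j := by
    intro i j hij
    apply List.ext_getElem?
    intro k
    by_cases hk : k < Q.size
    · exact congrFun hij ⟨k, hk⟩
    · rw [List.getElem?_eq_none (by have := hwl i; omega),
        List.getElem?_eq_none (by have := hwl j; omega)]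
  have hF2 : ∀ i j, F i = F j → ∃ k < 2 ^ n, j = 2 ^ k * i := by
    intro i j hij
    have h1 := hF i j hij
    have h2 : IsConj (e (A n ^ i.val)) (e (A n ^ j.val)) := by
      refine (hwc i).trans ?_
      rw [h1]
      exact (hwc j).symm
    have h3 : IsConj (A n ^ i.val) (A n ^ j.val) := by
      have := (e.symm.toMonoidHom).map_isConj h2
      simpa using this
    obtain ⟨k, hk, h4⟩ := conj_A_pow n _ _ h3
    refine ⟨k, hk, ?_⟩
    simpa using h4
  have key := Finset.card_le_mul_card_image (f := F) Finset.univ (2 ^ n) (by
    intro y hy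
    obtain ⟨i, -, rfl⟩ := Finset.mem_image.1 hy
    calc (Finset.filter (fun x => F x = F i) Finset.univ).card
        ≤ (Finset.image (fun k => 2 ^ k * i) (Finset.range (2 ^ n))).card := by
          apply Finset.card_le_card
          intro j hj
          rw [Finset.mem_filter] at hj
          obtain ⟨k, hk, h⟩ := hF2 i j hj.2.symm
          exact Finset.mem_image.2 ⟨k, Finset.mem_range.2 hk, h.symm⟩
      _ ≤ 2 ^ n := by
          refine Finset.card_image_le.trans ?_
          simp)
  rw [Finset.card_univ, ZMod.card] at key
  refine key.trans (Nat.mul_le_mul_left _ ?_)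
  refine (Finset.card_le_univ _).trans ?_
  simp [mul_comm]

/-- Every Dehn presentation of the group presented by `fam n`, over any generators,
has exponential size. -/
theorem size_bound (Q : FinPres) (hQ : Q.IsDehn) (e : (fam n).Grp ≃* Q.Grp) :
    2 ^ n ≤ n + 1 + Q.size * (Q.size + 1) := by
  have h1 := card_bound n Q hQ e
  have h2 : Q.gens ≤ Q.size := Nat.le_add_right _ _
  have h3 : 2 * Q.gens + 1 ≤ 2 ^ (Q.size + 1) := by
    have := Nat.lt_two_pow_self (n := Q.size)
    rw [pow_succ]
    omega
  have h4 : Mo n ≤ 2 ^ (n + Q.size * (Q.size + 1)) := by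
    refine h1.trans ?_
    rw [pow_add, mul_comm Q.size, pow_mul]
    exact Nat.mul_le_mul_left _ (Nat.pow_le_pow_left h3 _)
  have h5 : 2 ^ (2 ^ n) ≤ 2 ^ (n + 1 + Q.size * (Q.size + 1)) := by
    have h6 : 2 ^ (2 ^ n) ≤ 2 ^ (n + Q.size * (Q.size + 1)) + 1 := by
      unfold Mo at h4; omega
    have h7 : 2 ^ (n + 1 + Q.size * (Q.size + 1)) = 2 * 2 ^ (n + Q.size * (Q.size + 1)) := by
      rw [← pow_succ']; congr 1; ring
    have h8 := Nat.one_le_two_pow (n := n + Q.size * (Q.size + 1))
    omega
  exact (Nat.pow_le_pow_iff_right (by norm_num)).1 h5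

end counting

/-! ### The length of the output of a machine -/

section machine


open Turing StateTransition

/-- number of pushes occurring in a statement -/
def pushes {K : Type} {Γ : K → Type} {Λ σ : Type} : TM2.Stmt Γ Λ σ → ℕ
  | .push _ _ q => pushes q + 1
  | .peek _ _ q => pushes q
  | .pop _ _ q => pushes q
  | .load _ q => pushes q
  | .branch _ q₁ q₂ => pushes q₁ + pushes q₂
  | .goto _ => 0
  | .halt => 0

theorem stepAux_length {K : Type} [DecidableEq K] {Γ : K → Type} {Λ σ : Type}
    (q : TM2.Stmt Γ Λ σ) (v : σ) (S : ∀ k, List (Γ k)) (k : K) :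
    ((TM2.stepAux q v S).stk k).length ≤ (S k).length + pushes q := by
  induction q generalizing v S with
  | push k' f q ih =>
    rw [TM2.stepAux]
    refine (ih _ _).trans ?_
    by_cases h : k = k'
    · subst h
      simp only [pushes, Function.update_self, List.length_cons]; omega
    · simp only [pushes, Function.update_of_ne h]; omega
  | peek k' f q ih =>
    rw [TM2.stepAux]
    simpa [pushes] using ih _ _
  | pop k' f q ih =>
    rw [TM2.stepAux]
    refine (ih _ _).trans ?_
    by_cases h : k = k'
    · subst h
      simp [pushes]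
    · simp [pushes, Function.update_of_ne h]
  | load f q ih =>
    rw [TM2.stepAux]
    simpa [pushes] using ih _ _
  | branch f q₁ q₂ ih₁ ih₂ =>
    rw [TM2.stepAux]
    cases f v
    · refine (ih₂ _ _).trans ?_
      simp [pushes]
    · refine (ih₁ _ _).trans ?_
      simp [pushes]
  | goto f => simp [TM2.stepAux, pushes]
  | halt => simp [TM2.stepAux, pushes]

/-- A bound for the number of symbols a machine pushes in one step. -/
def maxPushes (M : FinTM2) : ℕ :=
  haveI := M.ΛFin
  ∑ l : M.Λ, pushes (M.m l)

theorem step_length (M : FinTM2) (c c' : M.Cfg) (h : M.step c = some c') (k : M.K) :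
    (c'.stk k).length ≤ (c.stk k).length + maxPushes M := by
  rcases c with ⟨l, v, S⟩
  cases l with
  | none => simp [FinTM2.step] at h
  | some l =>
    have h' : TM2.stepAux (M.m l) v S = c' := by
      simpa [FinTM2.step, TM2.step] using Option.some.inj h
    rw [← h']
    refine (stepAux_length _ _ _ k).trans ?_
    have : pushes (M.m l) ≤ maxPushes M := by
      let _ := M.ΛFin
      unfold maxPushes
      exact Finset.single_le_sum (f := fun l => pushes (M.m l)) (fun _ _ => Nat.zero_le _)
        (Finset.mem_univ l)
    exact Nat.add_le_add_left this _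

theorem iter_length (M : FinTM2) (n : ℕ) (c c' : M.Cfg)
    (h : (flip bind M.step)^[n] (some c) = some c') (k : M.K) :
    (c'.stk k).length ≤ (c.stk k).length + n * maxPushes M := by
  induction n generalizing c' with
  | zero =>
    simp only [Function.iterate_zero, id_eq, Option.some.injEq] at h
    subst h; simp
  | succ n ih =>
    rw [Function.iterate_succ_apply'] at h
    cases hc : (flip bind M.step)^[n] (some c) with
    | none => rw [hc] at h; exact absurd h (by intro h; cases h)
    | some d =>
      rw [hc] at h
      have h1 := ih d hc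
      have h2 := step_length M d c' h k
      rw [Nat.succ_mul]
      omega

theorem output_length (M : FinTM2) (inp : List (M.Γ M.k₀)) (out : List (M.Γ M.k₁)) (m : ℕ)
    (h : TM2OutputsInTime M inp (some out) m) :
    out.length ≤ inp.length + m * maxPushes M := by
  have h1 := iter_length M h.steps (initList M inp) (haltList M out) h.evals_in_steps M.k₁
  have h2 : ((haltList M out).stk M.k₁).length = out.length := by
    simp [haltList]
  have h3 : ((initList M inp).stk M.k₁).length ≤ inp.length := by
    simp only [initList]
    by_cases hk : M.k₁ = M.k₀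
    · rw [dif_pos hk]
      have : ∀ (k : M.K) (hk : k = M.k₀), (show List (M.Γ k) from (by rw [hk]; exact inp)).length ≤ inp.length := by
        rintro k rfl
        exact le_rfl
      exact this _ hk
    · rw [dif_neg hk]; simp
  have h4 := Nat.mul_le_mul_right (maxPushes M) h.steps_le_m
  omega


end machine

/-! ### Codes, growth, and the theorem -/

theorem length_encodeLetter {n : ℕ} (a : Fin n × Bool) :
    (encodeLetter a).length ≤ n + 1 := by
  unfold encodeLetter
  rw [List.length_append, List.length_map, Nat.size_eq_bits_len]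
  have h : a.1.1.size ≤ a.1.1 := Nat.size_le.2 Nat.lt_two_pow_self
  have := a.1.2
  simp only [List.length_cons, List.length_nil]
  omega

theorem one_le_length_encodeLetter {n : ℕ} (a : Fin n × Bool) :
    1 ≤ (encodeLetter a).length := by
  unfold encodeLetter
  simp

theorem length_encodeWord {n : ℕ} (w : List (Fin n × Bool)) :
    (encodeWord w).length ≤ 1 + w.length * (n + 1) := by
  induction w with
  | nil => simp [encodeWord]
  | cons a w ih =>
    have := length_encodeLetter a
    simp only [encodeWord, List.length_cons, List.flatMap_cons, List.length_append] at ih ⊢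
    rw [Nat.succ_mul]
    omega

theorem le_length_encodeWord {n : ℕ} (w : List (Fin n × Bool)) :
    w.length ≤ (encodeWord w).length := by
  induction w with
  | nil => simp [encodeWord]
  | cons a w ih =>
    have := one_le_length_encodeLetter a
    simp only [encodeWord, List.length_cons, List.flatMap_cons, List.length_append] at ih ⊢
    omega

/-- The size of a presentation is at most the length of its code. -/
theorem size_le_length_encode (P : FinPres) : P.size ≤ P.encode.length := by
  have h : ∀ l : List (List (Fin P.gens × Bool)),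
      (l.map List.length).sum ≤ (l.flatMap encodeWord).length := by
    intro l
    induction l with
    | nil => simp
    | cons a l ih =>
      have := le_length_encodeWord a
      simp only [List.map_cons, List.sum_cons, List.flatMap_cons, List.length_append]
      omega
  have := h P.rels
  simp only [FinPres.size, FinPres.encode, List.length_append, List.length_replicate]
  omega

theorem length_encode_le (P : FinPres) :
    P.encode.length ≤ P.gens + P.rels.length + (P.rels.map List.length).sum * (P.gens + 1) := by
  have h : ∀ l : List (List (Fin P.gens × Bool)),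
      (l.flatMap encodeWord).length ≤ l.length + (l.map List.length).sum * (P.gens + 1) := by
    intro l
    induction l with
    | nil => simp
    | cons a l ih =>
      have := length_encodeWord a
      simp only [List.map_cons, List.sum_cons, List.flatMap_cons, List.length_append,
        List.length_cons]
      rw [Nat.add_mul]
      omega
  have := h P.rels
  simp only [FinPres.encode, List.length_append, List.length_replicate]
  omega

theorem length_encode_fam (n : ℕ) :
    (fam n).encode.length ≤ (n + 2) + (n + 2) + (3 * n + 6) * (n + 3) := by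
  have h1 := length_encode_le (fam n)
  have h2 := size_fam n
  have h3 : (fam n).rels.length = n + 2 := by simp
  have h4 : ((fam n).rels.map List.length).sum = 3 * n + 6 := by
    unfold FinPres.size at h2
    have : (fam n).gens = n + 2 := rfl
    omega
  rw [h3, h4] at h1
  exact h1

theorem poly_lt_two_pow (F : Polynomial ℕ) : ∃ n : ℕ, F.eval n < 2 ^ n := by
  have key : ∀ F : Polynomial ℕ,
      (fun n : ℕ => ((F.eval n : ℕ) : ℝ)) =o[Filter.atTop] (fun n : ℕ => (2 : ℝ) ^ n) := by
    intro F
    induction F using Polynomial.induction_on' with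
    | add p q hp hq =>
      have := hp.add hq
      refine this.congr_left ?_
      intro n
      simp
    | monomial k a =>
      have h := (isLittleO_pow_const_const_pow_of_one_lt (R := ℝ) k (r := 2) (by norm_num))
      have := h.const_mul_left (a : ℝ)
      refine this.congr_left ?_
      intro n
      simp
  have h := (key F).def (c := 1 / 2) (by norm_num)
  obtain ⟨n, hn⟩ := h.exists
  refine ⟨n, ?_⟩
  simp only [Real.norm_natCast, norm_pow, Real.norm_ofNat] at hn
  have h2 : (0 : ℝ) < 2 ^ n := by positivity
  have h3 : ((F.eval n : ℕ) : ℝ) < ((2 ^ n : ℕ) : ℝ) := by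
    push_cast
    linarith
  exact_mod_cast h3

theorem eval_mono (p : Polynomial ℕ) {a b : ℕ} (h : a ≤ b) : p.eval a ≤ p.eval b := by
  rw [Polynomial.eval_eq_sum_range, Polynomial.eval_eq_sum_range]
  exact Finset.sum_le_sum fun i _ => Nat.mul_le_mul_left _ (Nat.pow_le_pow_left h i)

theorem nonempty_mulEquiv_of_sameClosure (P Q : FinPres) (h : P.SameClosure Q) :
    Nonempty (P.Grp ≃* Q.Grp) := by
  obtain ⟨R, rfl, hR⟩ := h
  exact ⟨QuotientGroup.quotientMulEquivOfEq hR.symm⟩

/-- No deterministic polynomial-time Turing machine computes Dehn presentations. -/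
theorem result :
    ¬ ∃ (M : Turing.TM2ComputableAux Sym Sym) (p : Polynomial ℕ),
      ∀ P : FinPres, IsWordHyperbolic P.Grp →
        ∃ Q : FinPres, Q.IsDehn ∧ (P.SameClosure Q ∨ Nonempty (P.Grp ≃* Q.Grp)) ∧
          Nonempty (Turing.TM2OutputsInTime M.tm (P.encode.map M.inputAlphabet.symm)
            (some (Q.encode.map M.outputAlphabet.symm)) (p.eval P.encode.length)) := by
  rintro ⟨M, p, h⟩
  let G : Polynomial ℕ := (Polynomial.X + 2) + (Polynomial.X + 2) +
    (3 * Polynomial.X + 6) * (Polynomial.X + 3)
  let F : Polynomial ℕ := G + p.comp G * Polynomial.C (maxPushes M.tm)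
  let H : Polynomial ℕ := Polynomial.X + 1 + F * (F + 1)
  obtain ⟨n, hn⟩ := poly_lt_two_pow H
  obtain ⟨Q, hQ, hiso, ⟨hout⟩⟩ := h (fam n) (isWordHyperbolic_of_finite _)
  have hiso' : Nonempty ((fam n).Grp ≃* Q.Grp) := by
    rcases hiso with h1 | h1
    · exact nonempty_mulEquiv_of_sameClosure _ _ h1
    · exact h1
  obtain ⟨e⟩ := hiso'
  have h1 := size_bound n Q hQ e
  have h2 := output_length M.tm _ _ _ hout
  rw [List.length_map, List.length_map] at h2
  have h3 := size_le_length_encode Q
  have h4 := length_encode_fam n
  have hG : G.eval n = (n + 2) + (n + 2) + (3 * n + 6) * (n + 3) := by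
    simp [G]
  rw [← hG] at h4
  have h5 := eval_mono p h4
  have h6 : Q.size ≤ F.eval n := by
    simp only [F, Polynomial.eval_add, Polynomial.eval_mul, Polynomial.eval_comp,
      Polynomial.eval_C]
    have := Nat.mul_le_mul_right (maxPushes M.tm) h5
    omega
  have h7 : H.eval n = n + 1 + F.eval n * (F.eval n + 1) := by
    simp [H]
  have h8 : Q.size * (Q.size + 1) ≤ F.eval n * (F.eval n + 1) :=
    Nat.mul_le_mul h6 (by omega)
  omega

end Pool.Agent.Results.MP_0fd394_lc.NoPolyTimeDehn
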